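import Pool.Agent.Helper18.SG.Goals

/-!
# Project SG: packet G5 (conservation)
-/

set_option autoImplicit false

namespace Pool.Agent.Helper38.SG

open Finset Pool.Agent.Helper18.SG

theorem choose_two_succ (n : ℕ) : (n + 1).choose 2 = n.choose 2 + n := by
  rw [Nat.choose_succ_succ' n 1, Nat.choose_one_right]
  ring

theorem choose_three_succ (n : ℕ) : (n + 1).choose 3 = n.choose 3 + n.choose 2 := by
  rw [Nat.choose_succ_succ' n 2]
  ring

/-- `∑_{k = 1}^w (v - k) + T_w = w v + T_(w - v)`. -/
theorem sum_sub (v w : ℕ) : ∑ k ∈ range w, (v - (k + 1)) + (w + 1).choose 2 =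
    w * v + (w - v + 1).choose 2 := by
  induction w with
  | zero => simp
  | succ w ih =>
    rw [sum_range_succ, choose_two_succ (w + 1)]
    rcases Nat.lt_or_ge w v with h | h
    · have h1 : w - v = 0 := by omega
      have h2 : w + 1 - v = 0 := by omega
      rw [h2]
      rw [h1] at ih
      have h3 : v - (w + 1) + (w + 1) = v := by omega
      linarith
    · have h1 : w + 1 - v + 1 = (w - v + 1) + 1 := by omega
      have h2 : v - (w + 1) = 0 := by omega
      rw [h1, choose_two_succ (w - v + 1), h2]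
      have h3 : w - v + 1 + v = w + 1 := by omega
      linarith

/-- the threshold costs `min (y + w + 1) (s + ν) - z` conditions. -/
theorem sum_thr (ν s z y w : ℕ) (hs : s ≤ y) (hz : y < z) :
    ∑ k ∈ range w, (ν - (y + 1 + k - s) - (if z ≤ y + 1 + k then 1 else 0)) +
      (min (y + w + 1) (s + ν) - z) = ∑ k ∈ range w, (ν - (y - s) - (k + 1)) := by
  induction w with
  | zero => simp; omega
  | succ w ih =>
    rw [sum_range_succ, sum_range_succ, ← ih]
    split_ifs with h <;> omega

theorem sum_unst (ν w : ℕ) : ∑ j ∈ range w, (ν - j) = w * (ν - w) + (min ν w + 1).choose 2 := by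
  induction w with
  | zero => simp
  | succ w ih =>
    rw [sum_range_succ, ih]
    rcases Nat.lt_or_ge w ν with h | h
    · have h1 : min ν w = w := by omega
      have h2 : min ν (w + 1) = w + 1 := by omega
      rw [h1, h2, choose_two_succ (w + 1)]
      obtain ⟨e, rfl⟩ : ∃ e, ν = w + 1 + e := ⟨ν - (w + 1), by omega⟩
      have h3 : w + 1 + e - w = e + 1 := by omega
      have h4 : w + 1 + e - (w + 1) = e := by omega
      rw [h3, h4]
      ring
    · have h1 : min ν w = ν := by omega
      have h2 : min ν (w + 1) = ν := by omega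
      have h3 : ν - w = 0 := by omega
      have h4 : ν - (w + 1) = 0 := by omega
      rw [h1, h2, h3, h4]
      ring

/-- The sum of the later rows of a started point. -/
theorem started (R ν s z y w : ℕ) (hR : R = y + w + 1) (hs : s ≤ y) :
    ∑ k ∈ range w, nv R ν s z (y + 1 + k) + (w + 1).choose 2 +
      (if y < z ∧ z ≠ R then min R (s + ν) - z else 0) =
    w * nv R ν s z y + (w - nv R ν s z y + 1).choose 2 ∨ R < z := by
  by_cases hzR : R < z
  · exact Or.inr hzR
  left
  have e : ∀ k ∈ range w, nv R ν s z (y + 1 + k) =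
      ν - (y + 1 + k - s) - (if z ≤ y + 1 + k then 1 else 0) := by
    intro k _
    unfold nv
    rw [if_pos (by omega)]
  have e0 : nv R ν s z y = ν - (y - s) - (if z ≤ y then 1 else 0) := by
    unfold nv
    rw [if_pos hs]
  rw [sum_congr rfl e, ← sum_sub]
  by_cases h1 : z ≤ y
  · rw [if_neg (by omega), e0, if_pos h1, add_zero]
    congr 1
    refine sum_congr rfl fun k _ => ?_
    rw [if_pos (by omega)]
    omega
  · rw [e0, if_neg h1, Nat.sub_zero, ← sum_thr ν s z y w hs (by omega)]
    by_cases h2 : z = R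
    · rw [if_neg (by omega)]
      have : min (y + w + 1) (s + ν) - z = 0 := by omega
      rw [this]
      ring
    · rw [if_pos ⟨by omega, h2⟩, hR]
      ring

theorem unst (R ν y : ℕ) (h : y < R) : nv R ν (R - 1) R y = ν - (R - 1 - y) := by
  unfold nv
  split_ifs <;> omega

/-- The pointwise inequality for a started point. -/
theorem pt_started (R ν s z y w : ℕ) (hR : R = y + w + 1) (hs : s ≤ y) (hz : z ≤ R) :
    (w + 1).choose 2 * nv R ν s z (y + 1) +
      (if 0 < nv R ν s z y then (w - nv R ν s z y + 1).choose 2 else 0) + w * nv R ν s z y ≤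
    ∑ k ∈ range w, nv R ν s z (y + 1 + k) +
      (if y < z ∧ z ≠ R then min R (s + ν) - z else 0) + (w + 1).choose 2 * nv R ν s z y := by
  have h := started R ν s z y w hR hs
  have h' := h.resolve_right (by omega)
  have e0 : nv R ν s z y = ν - (y - s) - (if z ≤ y then 1 else 0) := by
    unfold nv
    rw [if_pos hs]
  have e1 : nv R ν s z (y + 1) = ν - (y + 1 - s) - (if z ≤ y + 1 then 1 else 0) := by
    unfold nv
    rw [if_pos (by omega)]
  have h1 : nv R ν s z (y + 1) + (if 0 < nv R ν s z y then 1 else 0) ≤ nv R ν s z y := by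
    rw [e0, e1]
    split_ifs <;> omega
  generalize nv R ν s z y = v at *
  generalize nv R ν s z (y + 1) = n1 at *
  by_cases hv : 0 < v
  · rw [if_pos hv] at h1 ⊢
    have h2 := Nat.mul_le_mul_left ((w + 1).choose 2) h1
    rw [mul_add, mul_one] at h2
    linarith
  · have hv0 : v = 0 := by omega
    subst hv0
    rw [if_neg hv]
    have : n1 = 0 := by omega
    subst this
    simp

/-- The pointwise inequality for a point which is not started. -/
theorem pt_unst (R ν y w : ℕ) (hR : R = y + w + 1) (hw : 1 ≤ w) :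
    (w + 1).choose 2 * nv R ν (R - 1) R (y + 1) + w * nv R ν (R - 1) R y ≤
    ∑ k ∈ range w, nv R ν (R - 1) R (y + 1 + k) + (w + 1).choose 2 * nv R ν (R - 1) R y := by
  rw [unst R ν y (by omega), unst R ν (y + 1) (by omega)]
  have e : ∑ k ∈ range w, nv R ν (R - 1) R (y + 1 + k) = ∑ j ∈ range w, (ν - j) := by
    rw [← sum_range_reflect (fun j => ν - j) w]
    refine sum_congr rfl fun k hk => ?_
    rw [mem_range] at hk
    rw [unst R ν (y + 1 + k) (by omega)]
    congr 1
    omega
  rw [e, sum_unst]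
  have h0 : R - 1 - y = w := by omega
  have h1 : R - 1 - (y + 1) = w - 1 := by omega
  rw [h0, h1]
  by_cases h : w ≤ ν
  · have h2 : min ν w = w := by omega
    have h3 : ν - (w - 1) = (ν - w) + 1 := by omega
    rw [h2, h3]
    linarith
  · have h2 : ν - (w - 1) = 0 := by omega
    have h3 : ν - w = 0 := by omega
    rw [h2, h3]
    simp

/-- Second differences at most `S`. -/
theorem second_diff (ℓ : ℕ → ℕ) (S y n : ℕ)
    (h : ∀ k, k + 2 ≤ n → ℓ (y + k) + ℓ (y + k + 2) ≤ 2 * ℓ (y + k + 1) + S) :
    ∀ m, m ≤ n + 1 → ∑ k ∈ range m, ℓ (y + k) + m.choose 2 * ℓ y ≤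
      m * ℓ y + m.choose 2 * ℓ (y + 1) + S * m.choose 3 := by
  have h1 : ∀ k, k + 1 ≤ n → ℓ (y + k + 1) + ℓ y ≤ ℓ (y + k) + ℓ (y + 1) + k * S := by
    intro k
    induction k with
    | zero => intro _; simp; omega
    | succ k ih =>
      intro hk
      have a1 := ih (by omega)
      have a2 := h k (by omega)
      have e1 : y + (k + 1) + 1 = y + k + 2 := by ring
      have e2 : y + (k + 1) = y + k + 1 := by ring
      rw [e1, e2]
      have : (k + 1) * S = k * S + S := by ring
      omega
  have h2 : ∀ k, k ≤ n → ℓ (y + k) + k * ℓ y ≤ ℓ y + k * ℓ (y + 1) + S * k.choose 2 := by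
    intro k
    induction k with
    | zero => intro _; simp
    | succ k ih =>
      intro hk
      have a1 := ih (by omega)
      have a2 := h1 k hk
      rw [choose_two_succ, ← add_assoc]
      nlinarith
  intro m
  induction m with
  | zero => intro _; simp
  | succ m ih =>
    intro hm
    have a1 := ih (by omega)
    have a2 := h2 m (by omega)
    rw [sum_range_succ, choose_two_succ, choose_three_succ]
    nlinarith

theorem goalG5 : GoalG5 := by
  intro M S R N ν ℓ y a s z hG1 H O hy2 hyM
  obtain ⟨w, hw⟩ : ∃ w, R = y + w + 1 := ⟨R - 1 - y, by omega⟩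
  have hw' : R - 1 - y = w := by omega
  have hw2 : 2 ≤ w := by omega
  rw [hw']
  -- total
  have hG : ∀ c ∈ range N, ∑ t ∈ range R, nv R (ν c) (s c) (z c) t = (ν c + 1).choose 2 := by
    intro c _
    have hM := H.νM c
    have hM1 := H.M1
    have hR1 := H.R1
    by_cases hc : c < a
    · obtain ⟨b1, b2, b3, b4⟩ := O.st c hc
      exact hG1 R (ν c) (s c) (z c) (by omega) (by omega) b2 b3 b4
    · obtain ⟨b1, b2⟩ := O.un c (by omega)
      rw [b1, b2]
      exact hG1 R (ν c) (R - 1) R (by omega) (by omega) (by omega) le_rfl (fun _ => rfl)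
  have tot : ∑ t ∈ range R, Lo R N ν s z t = ∑ t ∈ range R, ℓ t := by
    unfold Lo
    rw [sum_comm, sum_congr rfl hG, H.tot]
  have tot2 : Lo R N ν s z y + ∑ k ∈ range w, Lo R N ν s z (y + 1 + k) =
      ∑ k ∈ range (w + 1), ℓ (y + k) := by
    have e1 : ∀ g : ℕ → ℕ, ∑ t ∈ range R, g t =
        ∑ t ∈ range y, g t + ∑ k ∈ range (w + 1), g (y + k) := by
      intro g
      rw [hw, add_assoc, sum_range_add]
    rw [e1, e1, sum_congr rfl (fun t ht => O.ex t (mem_range.mp ht))] at tot
    have := Nat.add_left_cancel tot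
    rw [← this, sum_range_succ', add_comm, add_zero]
    congr 1
    refine sum_congr rfl fun k _ => ?_
    congr 1
    ring
  -- pointwise
  have pw : ∀ c ∈ range N, (w + 1).choose 2 * nv R (ν c) (s c) (z c) (y + 1) +
      (if c < a ∧ 0 < nv R (ν c) (s c) (z c) y then
        (w - nv R (ν c) (s c) (z c) y + 1).choose 2 else 0) + w * nv R (ν c) (s c) (z c) y ≤
      ∑ k ∈ range w, nv R (ν c) (s c) (z c) (y + 1 + k) +
      (if c < a ∧ (y < z c ∧ z c ≠ R) then min R (s c + ν c) - z c else 0) +
      (w + 1).choose 2 * nv R (ν c) (s c) (z c) y := by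
    intro c _
    by_cases hc : c < a
    · obtain ⟨b1, b2, b3, b4⟩ := O.st c hc
      have := pt_started R (ν c) (s c) (z c) y w hw b1 b3
      simpa only [hc, true_and] using this
    · obtain ⟨b1, b2⟩ := O.un c (by omega)
      have := pt_unst R (ν c) y w hw (by omega)
      simpa only [hc, false_and, if_false, add_zero, b1, b2] using this
  have sm := sum_le_sum pw
  simp only [sum_add_distrib, ← mul_sum] at sm
  rw [sum_comm] at sm
  have c1 : ∀ (p : ℕ → Prop) [DecidablePred p] (g : ℕ → ℕ),
      ∑ c ∈ range N, (if c < a ∧ p c then g c else 0) = ∑ c ∈ (range a).filter p, g c := by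
    intro p _ g
    rw [← sum_filter]
    congr 1
    ext c
    have := O.aN
    simp only [mem_filter, mem_range]
    constructor
    · rintro ⟨_, h2, h3⟩
      exact ⟨h2, h3⟩
    · rintro ⟨h2, h3⟩
      exact ⟨by omega, h2, h3⟩
  rw [c1 (fun c => 0 < nv R (ν c) (s c) (z c) y), c1 (fun c => y < z c ∧ z c ≠ R)] at sm
  have sd := second_diff ℓ S y w (fun k hk => H.h2 (y + k) (by omega) (by omega)) (w + 1) le_rfl
  have hT : w + 1 ≤ (w + 1).choose 2 := by
    obtain ⟨e, rfl⟩ : ∃ e, w = e + 2 := ⟨w - 2, by omega⟩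
    rw [choose_two_succ, choose_two_succ]
    omega
  have hle := O.le
  have g1 : ∑ c ∈ range N, nv R (ν c) (s c) (z c) y = Lo R N ν s z y := rfl
  have g2 : ∑ c ∈ range N, nv R (ν c) (s c) (z c) (y + 1) = Lo R N ν s z (y + 1) := rfl
  have g3 : ∑ k ∈ range w, ∑ c ∈ range N, nv R (ν c) (s c) (z c) (y + 1 + k) =
    ∑ k ∈ range w, Lo R N ν s z (y + 1 + k) := rfl
  rw [g1, g2, g3] at sm
  obtain ⟨e, he⟩ := Nat.exists_eq_add_of_le hT
  obtain ⟨f, hf⟩ := Nat.exists_eq_add_of_le hle
  generalize (w + 1).choose 2 = T at *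
  generalize Lo R N ν s z (y + 1) = L1 at *
  generalize Lo R N ν s z y = L0 at *
  generalize ∑ k ∈ range w, Lo R N ν s z (y + 1 + k) = L2 at *
  have hef : 0 ≤ e * f := Nat.zero_le _
  rw [hf] at sd
  subst he
  nlinarith

end Pool.Agent.Helper38.SG
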